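import Pool.Agent.W201.NT.StmT

set_option autoImplicit false

namespace Pool.Agent.W409.NT.Mvs

open Pool.Agent.W201.NT

theorem tr (hi : S_HI) {X Y : Type} [TopologicalSpace X] [TopologicalSpace Y] (f : X → Y)
    (g : Y → X) (hf : Continuous f) (hg : Continuous g) (h : ∀ y, f (g y) = y) (n : ℕ)
    (hv : Van X n) : Van Y n := by
  refine hi X Y ⟨f, hf⟩ ⟨g, hg⟩ ?_ n hv
  have e : (ContinuousMap.comp ⟨f, hf⟩ ⟨g, hg⟩ : C(Y, Y)) = ContinuousMap.id Y := by
    ext y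
    exact h y
  rw [e]

theorem main : S_HI → S_MV → S_MVS := by
  intro hi mv X _ A B hA hB n vA vB vAB
  have cv : Continuous (Subtype.val : ↥(A ∪ B) → X) := continuous_subtype_val
  refine mv ↥(A ∪ B) (Subtype.val ⁻¹' A) (Subtype.val ⁻¹' B) (hA.preimage cv) (hB.preimage cv)
    ?_ n ?_ ?_ ?_
  · ext x
    simp only [Set.mem_union, Set.mem_preimage, Set.mem_univ, iff_true]
    exact x.2
  · refine tr hi (fun x : ↥A => (⟨⟨x.1, Or.inl x.2⟩, x.2⟩ :
      ↥((Subtype.val : ↥(A ∪ B) → X) ⁻¹' A))) (fun y => ⟨y.1.1, y.2⟩) ?_ ?_ ?_ _ vA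
    · exact Continuous.subtype_mk (Continuous.subtype_mk continuous_subtype_val _) _
    · exact Continuous.subtype_mk (continuous_subtype_val.comp continuous_subtype_val) _
    · intro y; rfl
  · refine tr hi (fun x : ↥B => (⟨⟨x.1, Or.inr x.2⟩, x.2⟩ :
      ↥((Subtype.val : ↥(A ∪ B) → X) ⁻¹' B))) (fun y => ⟨y.1.1, y.2⟩) ?_ ?_ ?_ _ vB
    · exact Continuous.subtype_mk (Continuous.subtype_mk continuous_subtype_val _) _
    · exact Continuous.subtype_mk (continuous_subtype_val.comp continuous_subtype_val) _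
    · intro y; rfl
  · refine tr hi (fun x : ↥(A ∩ B) => (⟨⟨x.1, Or.inl x.2.1⟩, x.2⟩ :
      ↥(((Subtype.val : ↥(A ∪ B) → X) ⁻¹' A) ∩ ((Subtype.val : ↥(A ∪ B) → X) ⁻¹' B))))
      (fun y => ⟨y.1.1, y.2⟩) ?_ ?_ ?_ _ vAB
    · exact Continuous.subtype_mk (Continuous.subtype_mk continuous_subtype_val _) _
    · exact Continuous.subtype_mk (continuous_subtype_val.comp continuous_subtype_val) _
    · intro y; rfl

end Pool.Agent.W409.NT.Mvs
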